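import Mathlib
import Pool.Agent.TH759.GP.Fam

/-!
# Fine normal ultrafilters on `P_κ(κ⁺)` fail the Galvin property at `2 ^ κ⁺`

Let `κ` be uncountable, `|X| = κ⁺`, and let `U` be a fine normal ultrafilter on the set of subsets
of `X` of size `< κ`. If `2 ^ κ ≤ κ⁺⁺` (for instance under GCH), then `Gal(U, κ, 2 ^ κ⁺)` fails.

Idea: call a family of functions `h i : X → X` separated if each subfamily of size `κ` is injective
at some point `z`. Then the sets `A i = {x | x is closed under h i}` belong to `U`, and no `κ` of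
them have intersection in `U`: a point `x` of such an intersection with `z ∈ x` would contain `κ`
elements. A separated family of `2 ^ κ⁺` functions is obtained by composing two eventually different
families: initial segments of subsets of `κ⁺` are coded by ordinals below `κ⁺⁺` (here `2 ^ κ ≤ κ⁺⁺`
is used), and these ordinals index `κ⁺⁺` eventually different functions from `κ⁺` to `κ⁺`.
-/

set_option autoImplicit false

namespace Pool.Agent.Results.MP_a3089e_lc.NoGalvin

open Cardinal Set

universe u

theorem result (κ : Cardinal.{u}) (X : Type u) (hκ : ℵ₀ < κ) (hX : #X = Order.succ κ)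
    (U : Ultrafilter {x : Set X // #x < κ})
    (_complete : ∀ S : Set (Set {x : Set X // #x < κ}),
      #S < κ → (∀ s ∈ S, s ∈ U) → ⋂₀ S ∈ U)
    (fine : ∀ a : X, {x : {x : Set X // #x < κ} | a ∈ x.1} ∈ U)
    (normal : ∀ f : {x : Set X // #x < κ} → X,
      {x : {x : Set X // #x < κ} | f x ∈ x.1} ∈ U →
        ∃ a : X, {x : {x : Set X // #x < κ} | f x = a} ∈ U)
    (hpow : (2 : Cardinal.{u}) ^ κ ≤ Order.succ (Order.succ κ)) :
    ∃ S : Set (Set {x : Set X // #x < κ}), (∀ s ∈ S, s ∈ U) ∧
      #S = (2 : Cardinal.{u}) ^ Order.succ κ ∧ ∀ T ⊆ S, #T = κ → ⋂₀ T ∉ U :=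
  Pool.Agent.TH759.GP.main hκ hX U fine normal hpow

end Pool.Agent.Results.MP_a3089e_lc.NoGalvin
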